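import Mathlib
import Pool.Agent.Helper951.WheelCE
import Pool.Agent.Results.MP_65a48b_co.QOneDisproof
import Pool.Agent.Results.MP_65a48b_co.QTwoDisproof

/-!
# Joins of two perfect matchings: both bounds fail for at least `x^(3/4) / 64` of the `m ≤ x`

For `p, q ≥ 1` let `JM (2p) (2q)` be the join of two perfect matchings, on `2p` and `2q` vertices.
It is `W_5`-free, has `m = 4pq + p + q` edges and spectral radius exactly `1 + 2 √(pq)`. This is
larger than `(1 + √(4m - 3)) / 2`, the bound of Q1 for `k = 2`, exactly when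
`(p - q)^2 + 1 < 2 (p + q)`. The bound of Q2 for `k = 2` is smaller than `(1 + √(4m - 3)) / 2`, so
that Q1 fails for the odd numbers `m` of this form and Q2 for the even ones. With `c = p + q` and
`d = p - q` these are the numbers `m = c^2 + c - d^2`, `c ≡ d mod 2`, `d^2 + 1 < 2c`; different
pairs `(c, d)` give different `m`.
-/

set_option autoImplicit false
set_option linter.unusedSimpArgs false

namespace Pool.Agent.Results.MP_65a48b_co.ManyViolations

open Finset Pool.Agent.Helper951.Defs Pool.Agent.Helper951.Spec Pool.Agent.Helper951.WheelCE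
open Pool.Agent.Results.MP_65a48b_co.QOneDisproof (ViolatesQ1)
open Pool.Agent.Results.MP_65a48b_co.QTwoDisproof (ViolatesQ2 nbr_sum)

/-- number of edges of the join of two perfect matchings -/
lemma JM_edges (p q : ℕ) : (JM (2 * p) (2 * q)).edgeFinset.card = 4 * p * q + p + q := by
  have h := (JM (2 * p) (2 * q)).sum_degrees_eq_twice_card_edges
  rw [Fintype.sum_sum_type] at h
  simp only [JM_deg_l, JM_deg_r] at h
  rw [Finset.sum_add_distrib, Finset.sum_add_distrib, sum_matched_even, sum_matched_even] at h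
  simp only [Finset.sum_const, Finset.card_univ, Fintype.card_fin, smul_eq_mul] at h
  nlinarith

/-- the spectral radius of the join of two perfect matchings -/
lemma JM_specRad (p q : ℕ) (hp : 1 ≤ p) (hq : 1 ≤ q) :
    specRad (JM (2 * p) (2 * q)) = 1 + 2 * Real.sqrt (p * q) := by
  have : Nonempty (Fin (2 * p) ⊕ Fin (2 * q)) := ⟨Sum.inl ⟨0, by omega⟩⟩
  have hp0 : (0 : ℝ) < p := by exact_mod_cast hp
  have hq0 : (0 : ℝ) < q := by exact_mod_cast hq
  have sp : 0 < Real.sqrt p := Real.sqrt_pos.2 hp0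
  have sq : 0 < Real.sqrt q := Real.sqrt_pos.2 hq0
  have sp2 : Real.sqrt p * Real.sqrt p = p := Real.mul_self_sqrt hp0.le
  have sq2 : Real.sqrt q * Real.sqrt q = q := Real.mul_self_sqrt hq0.le
  have spq : Real.sqrt (p * q) = Real.sqrt p * Real.sqrt q := Real.sqrt_mul hp0.le _
  let y : Fin (2 * p) ⊕ Fin (2 * q) → ℝ := Sum.elim (fun _ => Real.sqrt q) (fun _ => Real.sqrt p)
  have hy : ∀ v, 0 < y v := by
    rintro (i | i)
    · exact sq
    · exact sp
  have hrow : ∀ v, ∑ u ∈ (JM (2 * p) (2 * q)).neighborFinset v, y u =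
      (1 + 2 * Real.sqrt (p * q)) * y v := by
    rintro (i | i)
    · rw [JM_sum_l]
      simp only [y, Sum.elim_inl, Sum.elim_inr, Finset.sum_const, mat_count, Finset.card_univ,
        Fintype.card_fin, nsmul_eq_mul]
      have := i.isLt
      rw [if_pos (by omega), spq]
      push_cast
      have e : 2 * (p : ℝ) * Real.sqrt p = 2 * (Real.sqrt p * Real.sqrt q) * Real.sqrt q +
          2 * (p : ℝ) * Real.sqrt p - 2 * (Real.sqrt p * (Real.sqrt q * Real.sqrt q)) := by ring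
      rw [sq2] at e
      nlinarith
    · rw [JM_sum_r]
      simp only [y, Sum.elim_inl, Sum.elim_inr, Finset.sum_const, mat_count, Finset.card_univ,
        Fintype.card_fin, nsmul_eq_mul]
      have := i.isLt
      rw [if_pos (by omega), spq]
      push_cast
      have e : (Real.sqrt p * Real.sqrt p) * Real.sqrt q = p * Real.sqrt q := by rw [sp2]
      nlinarith
  apply le_antisymm
  · exact specRad_le_of_super _ y hy _ (fun v => (hrow v).le)
  · exact le_specRad_of_sub _ y (fun v => (hy v).le) ⟨Sum.inl ⟨0, by omega⟩, hy _⟩ _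
      (fun v => (hrow v).ge)

/-- comparison of `1 + 2 √(pq)` with the bound of Q1 -/
lemma bound_lt_iff (p q : ℕ) (hq : 1 ≤ q) (hqp : q ≤ p) :
    (1 + Real.sqrt (4 * ((4 * p * q + p + q : ℕ) : ℝ) - 3)) / 2 < 1 + 2 * Real.sqrt (p * q) ↔
      (p - q) ^ 2 + 1 < 2 * (p + q) := by
  obtain ⟨d, rfl⟩ := Nat.exists_eq_add_of_le hqp
  have hq1 : (1 : ℝ) ≤ q := by exact_mod_cast hq
  have hd0 : (0 : ℝ) ≤ d := Nat.cast_nonneg d
  rw [Nat.add_sub_cancel_left]
  set X : ℝ := Real.sqrt (((q + d : ℕ) : ℝ) * q) with hX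
  have hX0 : 0 ≤ X := Real.sqrt_nonneg _
  have hXs : X * X = (q + d) * q := by
    rw [hX, Real.mul_self_sqrt (by positivity)]
    push_cast
    ring
  have hE : 4 * ((4 * (q + d) * q + (q + d) + q : ℕ) : ℝ) - 3 = 16 * (X * X) + 4 * (2 * q + d) - 3 := by
    rw [hXs]
    push_cast
    ring
  rw [hE]
  have hE0 : 0 ≤ 16 * (X * X) + 4 * (2 * (q : ℝ) + d) - 3 := by nlinarith
  have h1 : (1 + Real.sqrt (16 * (X * X) + 4 * (2 * (q : ℝ) + d) - 3)) / 2 < 1 + 2 * X ↔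
      Real.sqrt (16 * (X * X) + 4 * (2 * (q : ℝ) + d) - 3) < 1 + 4 * X := by
    constructor <;> intro h <;> linarith
  rw [h1, Real.sqrt_lt' (by linarith)]
  have h2 : (16 * (X * X) + 4 * (2 * (q : ℝ) + d) - 3 < (1 + 4 * X) ^ 2) ↔
      (2 * (q : ℝ) + d - 1 < 2 * X) := by
    constructor <;> intro h <;> nlinarith
  rw [h2]
  have h3 : (2 * (q : ℝ) + d - 1 < 2 * X) ↔ ((2 * (q : ℝ) + d - 1) ^ 2 < (2 * X) ^ 2) := by
    rw [sq_lt_sq₀ (by linarith) (by linarith)]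
  rw [h3]
  have h4 : ((2 * (q : ℝ) + d - 1) ^ 2 < (2 * X) ^ 2) ↔ ((d : ℝ) ^ 2 + 1 < 2 * (q + d + q)) := by
    have : (2 * X) ^ 2 = 4 * ((q + d) * q) := by rw [← hXs]; ring
    rw [this]
    constructor <;> intro h <;> nlinarith
  rw [h4]
  constructor
  · intro h
    exact_mod_cast h
  · intro h
    exact_mod_cast h

open Classical in
/-- an upper bound for the spectral radius of `S^{1,1}_{n,2}`: it is smaller than the bound of Q1 -/
lemma S1_lt (t : ℕ) (θ : ℝ) (hθ : 0 < θ) (h : θ ^ 2 - θ = 2 * t + 1) :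
    specRad (S1 (t + 3) 2 1) < θ := by
  have : Nonempty (Fin 1 ⊕ ((Fin (2 - 1) ⊕ Fin (t + 3 - 2 - 1)) ⊕ Fin 1)) := ⟨Sum.inl 0⟩
  have ht : (0 : ℝ) ≤ t := Nat.cast_nonneg t
  set α : ℝ := 1 / (2 * (θ + t)) with hα
  set η : ℝ := 1 / (2 * (t + 2)) with hη
  have hα0 : 0 < α := by rw [hα]; positivity
  have hη0 : 0 < η := by rw [hη]; positivity
  have hα1 : α * (θ + t) = 1 / 2 := by
    rw [hα]
    field_simp
  have hη1 : η * (t + 2) = 1 / 2 := by
    rw [hη]
    field_simp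
  let z : Fin 1 ⊕ ((Fin (2 - 1) ⊕ Fin (t + 3 - 2 - 1)) ⊕ Fin 1) → ℝ :=
    Sum.elim (fun _ => 1 + α) (Sum.elim (Sum.elim (fun _ => 1) (fun _ => (2 + α + η) / θ))
      (fun _ => (1 + α + η) / θ))
  have hz : ∀ v, 0 < z v := by
    rintro (a | ((a | a) | a))
    · change 0 < 1 + α
      linarith
    · exact one_pos
    · exact div_pos (by linarith) hθ
    · exact div_pos (by linarith) hθ
  have hc1 : Fintype.card (Fin (t + 3 - 2 - 1)) = t := by simp
  apply specRad_lt_of_super _ z hz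
  rintro (a | ((a | a) | a))
  · have hrow : ∑ u ∈ (S1 (t + 3) 2 1).neighborFinset (Sum.inl a), z u =
        1 + t * ((2 + α + η) / θ) + (1 + α + η) / θ := by
      rw [nbr_sum]
      simp only [Fintype.sum_sum_type, S1, join, SimpleGraph.sum, z, Sum.elim_inl, Sum.elim_inr,
        if_true, Finset.sum_const, Finset.card_univ, hc1, Fintype.card_fin, nsmul_eq_mul]
      have : ∀ b : Fin 1, ¬ (⊤ : SimpleGraph (Fin 1)).Adj a b := by
        intro b hb
        exact hb (Subsingleton.elim _ _)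
      simp [this]
    rw [hrow]
    change _ < θ * (1 + α)
    have h1 : 1 + t * ((2 + α + η) / θ) + (1 + α + η) / θ =
        (θ + t * (2 + α + η) + (1 + α + η)) / θ := by
      field_simp
    rw [h1, div_lt_iff₀ hθ]
    nlinarith
  · have hrow : ∑ u ∈ (S1 (t + 3) 2 1).neighborFinset (Sum.inr (Sum.inl (Sum.inl a))), z u =
        (1 + α) + t * ((2 + α + η) / θ) := by
      rw [nbr_sum]
      simp only [Fintype.sum_sum_type, S1, join, SimpleGraph.sum, z, Sum.elim_inl, Sum.elim_inr,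
        if_true, Finset.sum_const, Finset.card_univ, hc1, Fintype.card_fin, nsmul_eq_mul]
      have : ∀ b : Fin (2 - 1), ¬ (⊤ : SimpleGraph (Fin (2 - 1))).Adj a b := by
        intro b hb
        apply hb
        have ha := a.isLt
        have hb := b.isLt
        ext
        omega
      simp [this]
    rw [hrow]
    change _ < θ * 1
    have h1 : (1 + α) + t * ((2 + α + η) / θ) = ((1 + α) * θ + t * (2 + α + η)) / θ := by
      field_simp
    rw [h1, mul_one, div_lt_iff₀ hθ]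
    nlinarith
  · have hrow : ∑ u ∈ (S1 (t + 3) 2 1).neighborFinset (Sum.inr (Sum.inl (Sum.inr a))), z u =
        (1 + α) + 1 := by
      rw [nbr_sum]
      simp only [Fintype.sum_sum_type, S1, join, SimpleGraph.sum, z, Sum.elim_inl, Sum.elim_inr,
        if_true, Finset.sum_const, Finset.card_univ, hc1, Fintype.card_fin, nsmul_eq_mul]
      simp
    rw [hrow]
    change _ < θ * ((2 + α + η) / θ)
    rw [mul_div_cancel₀ _ hθ.ne']
    linarith
  · have hrow : ∑ u ∈ (S1 (t + 3) 2 1).neighborFinset (Sum.inr (Sum.inr a)), z u = 1 + α := by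
      rw [nbr_sum]
      simp only [Fintype.sum_sum_type, S1, join, SimpleGraph.sum, z, Sum.elim_inl, Sum.elim_inr,
        if_true, Finset.sum_const, Finset.card_univ, hc1, Fintype.card_fin, nsmul_eq_mul]
      simp
    rw [hrow]
    change _ < θ * ((1 + α + η) / θ)
    rw [mul_div_cancel₀ _ hθ.ne']
    linarith

/-- the three properties of the graph -/
lemma JM_props (p q : ℕ) (hp : 1 ≤ p) (hq : 1 ≤ q) :
    (JM (2 * p) (2 * q)).edgeSet.ncard = 4 * p * q + p + q ∧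
    (∀ v, ∃ w, (JM (2 * p) (2 * q)).Adj v w) ∧ ¬ (wheel 5).IsContained (JM (2 * p) (2 * q)) := by
  refine ⟨?_, ?_, JM_free _ _⟩
  · rw [Set.ncard_eq_toFinset_card', ← JM_edges p q]
    rfl
  · rintro (i | j)
    · exact ⟨Sum.inr ⟨0, by omega⟩, JM_lr _ _⟩
    · exact ⟨Sum.inl ⟨0, by omega⟩, JM_rl _ _⟩

/-- Q1 is violated at `m = 4pq + p + q` if `m` is odd -/
lemma viol1 (p q : ℕ) (hq : 1 ≤ q) (hqp : q ≤ p) (h : (p - q) ^ 2 + 1 < 2 * (p + q))
    (hodd : Odd (p + q)) : ViolatesQ1 2 (4 * p * q + p + q) := by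
  have hp : 1 ≤ p := le_trans hq hqp
  obtain ⟨k, hk⟩ := hodd
  refine ⟨?_, _, inferInstance, JM (2 * p) (2 * q), (JM_props p q hp hq).1,
    (JM_props p q hp hq).2.1, (JM_props p q hp hq).2.2, ?_⟩
  · have : 4 * p * q + p + q = 2 * (2 * p * q + k) + 1 := by
      rw [add_assoc, hk]; ring
    rw [this]
    unfold Nat.ModEq
    omega
  · rw [JM_specRad p q hp hq]
    have h1 := (bound_lt_iff p q hq hqp).2 h
    have h2 : (((2 : ℕ) : ℝ) - 1 + Real.sqrt (4 * ((4 * p * q + p + q : ℕ) : ℝ) -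
        (((2 : ℕ) : ℝ)) ^ 2 + 1)) / 2 =
        (1 + Real.sqrt (4 * ((4 * p * q + p + q : ℕ) : ℝ) - 3)) / 2 := by
      have e1 : ((2 : ℕ) : ℝ) - 1 = 1 := by norm_num
      have e2 : 4 * ((4 * p * q + p + q : ℕ) : ℝ) - (((2 : ℕ) : ℝ)) ^ 2 + 1 =
          4 * ((4 * p * q + p + q : ℕ) : ℝ) - 3 := by
        push_cast
        ring
      rw [e1, e2]
    rw [h2]
    exact h1

/-- Q2 is violated at `m = 4pq + p + q` if `m` is even -/
lemma viol2 (p q : ℕ) (hq : 1 ≤ q) (hqp : q ≤ p) (h : (p - q) ^ 2 + 1 < 2 * (p + q))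
    (heven : Even (p + q)) : ViolatesQ2 2 (4 * p * q + p + q) := by
  have hp : 1 ≤ p := le_trans hq hqp
  obtain ⟨k, hk⟩ := heven
  have hk1 : 1 ≤ k := by omega
  obtain ⟨t, ht⟩ : ∃ t, 4 * p * q + p + q = 2 * t + 2 := by
    refine ⟨2 * p * q + (k - 1), ?_⟩
    rw [add_assoc, hk]
    have : k = (k - 1) + 1 := by omega
    calc 4 * p * q + (k + k) = 2 * (2 * p * q) + 2 * k := by ring
      _ = 2 * (2 * p * q) + 2 * ((k - 1) + 1) := by rw [← this]
      _ = _ := by ring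
  refine ⟨1, t + 3, le_rfl, le_rfl, ?_, ?_, _, inferInstance, JM (2 * p) (2 * q),
    (JM_props p q hp hq).1, (JM_props p q hp hq).2.1, (JM_props p q hp hq).2.2, ?_⟩
  · rw [ht]
    unfold Nat.ModEq
    omega
  · rw [ht]
    push_cast
    ring
  · rw [JM_specRad p q hp hq]
    have h1 := (bound_lt_iff p q hq hqp).2 h
    rw [ht] at h1
    refine lt_trans (S1_lt t _ ?_ ?_) h1
    · have := Real.sqrt_nonneg (4 * ((2 * t + 2 : ℕ) : ℝ) - 3)
      linarith
    · have h2 : 0 ≤ 4 * ((2 * t + 2 : ℕ) : ℝ) - 3 := by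
        push_cast
        have : (0 : ℝ) ≤ t := Nat.cast_nonneg t
        linarith
      have h3 := Real.sq_sqrt h2
      have h4 : 4 * ((2 * t + 2 : ℕ) : ℝ) - 3 = 8 * t + 5 := by
        push_cast
        ring
      rw [h4] at h3 ⊢
      nlinarith

/-- the numbers `c^2 + c - d^2` with `d^2 + 1 < 2c` are different for different pairs -/
lemma num_inj {c d c' d' : ℕ} (h : d ^ 2 + 1 < 2 * c) (h' : d' ^ 2 + 1 < 2 * c')
    (e : c ^ 2 + c + d' ^ 2 = c' ^ 2 + c' + d ^ 2) : c = c' ∧ d = d' := by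
  have hc : c = c' := by
    rcases lt_trichotomy c c' with hlt | heq | hgt
    · exfalso
      nlinarith
    · exact heq
    · exfalso
      nlinarith
  subst hc
  refine ⟨rfl, ?_⟩
  have : d' ^ 2 = d ^ 2 := by omega
  exact (Nat.pow_left_injective (n := 2) (by norm_num) this).symm

/-- counting: at least `s^3` of the numbers up to `16 s^4` are of the form `c^2 + c - d^2` with
`d^2 + 1 < 2c` and `c`, `d` of the given parity `e` -/
lemma count (P : ℕ → Prop) (e : ℕ) (he : e ≤ 1)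
    (hP : ∀ p q : ℕ, 1 ≤ q → q ≤ p → (p - q) ^ 2 + 1 < 2 * (p + q) → (p + q) % 2 = e →
      P (4 * p * q + p + q)) (s : ℕ) (hs : 1 ≤ s) (x : ℕ) (hx : 16 * s ^ 4 ≤ x) :
    s ^ 3 ≤ {m | m ≤ x ∧ P m}.ncard := by
  classical
  let f : ℕ × ℕ → ℕ := fun a =>
    4 * (s ^ 2 + a.1 + a.2 + e) * (s ^ 2 + a.1 - a.2) + (s ^ 2 + a.1 + a.2 + e) +
      (s ^ 2 + a.1 - a.2)
  have hmem : ∀ a ∈ Finset.range (s ^ 2) ×ˢ Finset.range s,
      f a + (2 * a.2 + e) ^ 2 = (2 * s ^ 2 + 2 * a.1 + e) ^ 2 + (2 * s ^ 2 + 2 * a.1 + e) ∧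
      (2 * a.2 + e) ^ 2 + 1 < 2 * (2 * s ^ 2 + 2 * a.1 + e) ∧ f a ≤ x ∧ P (f a) := by
    rintro ⟨i, j⟩ ha
    rw [Finset.mem_product, Finset.mem_range, Finset.mem_range] at ha
    obtain ⟨hi, hj⟩ := ha
    simp only at hi hj
    have hss : s ≤ s ^ 2 := by nlinarith
    obtain ⟨r, hr⟩ : ∃ r, s ^ 2 + i = j + r ∧ 1 ≤ r := ⟨s ^ 2 + i - j, by omega, by omega⟩
    obtain ⟨hr, hr1⟩ := hr
    have hq : s ^ 2 + i - j = r := by omega
    have hp : s ^ 2 + i + j + e = r + 2 * j + e := by omega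
    have hf : f (i, j) = 4 * (r + 2 * j + e) * r + (r + 2 * j + e) + r := by
      simp only [f, hq, hp]
    have hc : 2 * s ^ 2 + 2 * i + e = 2 * r + 2 * j + e := by omega
    have h2 : (2 * j + e) ^ 2 + 1 < 2 * (2 * s ^ 2 + 2 * i + e) := by
      have hj1 : j + 1 ≤ s := hj
      have e1 : (2 * j + e) ^ 2 ≤ (2 * j + 1) ^ 2 := Nat.pow_le_pow_left (by omega) 2
      have e2 : (j + 1) ^ 2 ≤ s ^ 2 := Nat.pow_le_pow_left hj1 2
      nlinarith
    refine ⟨?_, h2, ?_, ?_⟩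
    · rw [hf, hc]
      ring
    · have h3 : f (i, j) + (2 * j + e) ^ 2 =
          (2 * s ^ 2 + 2 * i + e) ^ 2 + (2 * s ^ 2 + 2 * i + e) := by
        rw [hf, hc]
        ring
      have h4 : 2 * s ^ 2 + 2 * i + e + 1 ≤ 4 * s ^ 2 := by omega
      have h5 : (2 * s ^ 2 + 2 * i + e) ^ 2 + (2 * s ^ 2 + 2 * i + e) ≤ 16 * s ^ 4 := by
        calc (2 * s ^ 2 + 2 * i + e) ^ 2 + (2 * s ^ 2 + 2 * i + e)
            = (2 * s ^ 2 + 2 * i + e) * (2 * s ^ 2 + 2 * i + e + 1) := by ring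
          _ ≤ (4 * s ^ 2) * (4 * s ^ 2) := Nat.mul_le_mul (by omega) h4
          _ = 16 * s ^ 4 := by ring
      omega
    · rw [hf]
      apply hP _ _ hr1 (by omega)
      · have h6 : r + 2 * j + e - r = 2 * j + e := by omega
        rw [h6]
        rw [hc] at h2
        have : 2 * (r + 2 * j + e + r) = 2 * (2 * r + 2 * j + e) := by ring
        rw [this]
        exact h2
      · omega
  have hinj : Set.InjOn f (Finset.range (s ^ 2) ×ˢ Finset.range s : Finset (ℕ × ℕ)) := by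
    intro a ha b hb hab
    obtain ⟨h1, h2, -, -⟩ := hmem a ha
    obtain ⟨h3, h4, -, -⟩ := hmem b hb
    have h5 := num_inj h2 h4 (by rw [← h1, ← h3, hab]; ring)
    ext
    · omega
    · omega
  have hcard : s ^ 3 = ((Finset.range (s ^ 2) ×ˢ Finset.range s).image f).card := by
    rw [Finset.card_image_of_injOn hinj, Finset.card_product, Finset.card_range,
      Finset.card_range]
    ring
  rw [hcard, ← Set.ncard_coe_finset]
  apply Set.ncard_le_ncard
  · intro m hm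
    rw [Finset.mem_coe, Finset.mem_image] at hm
    obtain ⟨a, ha, rfl⟩ := hm
    exact ⟨(hmem a ha).2.2.1, (hmem a ha).2.2.2⟩
  · exact (Set.finite_Iic x).subset (fun m hm => hm.1)

/-- from `s^3` of the numbers up to `16 s^4` to `x^(3/4) / 64` of the numbers up to `x` -/
lemma density (P : ℕ → Prop) (h : ∀ s : ℕ, 1 ≤ s → ∀ x, 16 * s ^ 4 ≤ x →
    s ^ 3 ≤ {m | m ≤ x ∧ P m}.ncard) (x : ℕ) (hx : 16 ≤ x) :
    (x : ℝ) ^ (3 / 4 : ℝ) / 64 ≤ ({m | m ≤ x ∧ P m}.ncard : ℝ) := by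
  set s := Nat.sqrt (Nat.sqrt (x / 16)) with hs
  have h1 : 1 ≤ x / 16 := by omega
  have h2 : 1 ≤ Nat.sqrt (x / 16) := by
    rw [Nat.le_sqrt]
    omega
  have h3 : 1 ≤ s := by
    rw [hs, Nat.le_sqrt]
    omega
  have h4 : s ^ 2 ≤ Nat.sqrt (x / 16) := Nat.sqrt_le' _
  have h5 : Nat.sqrt (x / 16) ^ 2 ≤ x / 16 := Nat.sqrt_le' _
  have h6 : Nat.sqrt (x / 16) < (s + 1) ^ 2 := Nat.lt_succ_sqrt' _
  have h7 : x / 16 < (Nat.sqrt (x / 16) + 1) ^ 2 := Nat.lt_succ_sqrt' _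
  have h8 : s ^ 4 ≤ x / 16 := by
    calc s ^ 4 = (s ^ 2) ^ 2 := by ring
      _ ≤ Nat.sqrt (x / 16) ^ 2 := Nat.pow_le_pow_left h4 2
      _ ≤ _ := h5
  have h9 : x / 16 < (s + 1) ^ 4 := by
    calc x / 16 < (Nat.sqrt (x / 16) + 1) ^ 2 := h7
      _ ≤ ((s + 1) ^ 2) ^ 2 := Nat.pow_le_pow_left h6 2
      _ = (s + 1) ^ 4 := by ring
  have h10 : x ≤ 16 * (2 * s) ^ 4 := by
    have : (s + 1) ^ 4 ≤ (2 * s) ^ 4 := Nat.pow_le_pow_left (by omega) 4
    omega
  have h11 := h s h3 x (by omega)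
  have h12 : (x : ℝ) ^ (3 / 4 : ℝ) ≤ 64 * (s : ℝ) ^ 3 := by
    have e1 : (x : ℝ) ≤ (4 * s : ℝ) ^ 4 := by
      have : (x : ℝ) ≤ ((16 * (2 * s) ^ 4 : ℕ) : ℝ) := by exact_mod_cast h10
      refine this.trans (le_of_eq ?_)
      push_cast
      ring
    calc (x : ℝ) ^ (3 / 4 : ℝ) ≤ ((4 * s : ℝ) ^ 4) ^ (3 / 4 : ℝ) :=
          Real.rpow_le_rpow (Nat.cast_nonneg x) e1 (by norm_num)
      _ = (4 * s : ℝ) ^ 3 := by
          rw [← Real.rpow_natCast, ← Real.rpow_mul (by positivity), ← Real.rpow_natCast]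
          norm_num
      _ = 64 * (s : ℝ) ^ 3 := by ring
  have h13 : ((s ^ 3 : ℕ) : ℝ) ≤ ({m | m ≤ x ∧ P m}.ncard : ℝ) := by exact_mod_cast h11
  rw [div_le_iff₀ (by norm_num)]
  push_cast at h13
  linarith

/-- **Both questions fail for `k = 2`, for at least `x^(3/4) / 64` of the admissible `m ≤ x`.** -/
theorem result :
    (∀ p q : ℕ, 1 ≤ q → q ≤ p →
      (JM (2 * p) (2 * q)).edgeSet.ncard = 4 * p * q + p + q ∧
      (∀ v, ∃ w, (JM (2 * p) (2 * q)).Adj v w) ∧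
      ¬ (wheel 5).IsContained (JM (2 * p) (2 * q)) ∧
      specRad (JM (2 * p) (2 * q)) = 1 + 2 * Real.sqrt (p * q) ∧
      ((1 + Real.sqrt (4 * ((4 * p * q + p + q : ℕ) : ℝ) - 3)) / 2 <
        specRad (JM (2 * p) (2 * q)) ↔ (p - q) ^ 2 + 1 < 2 * (p + q)) ∧
      ((p - q) ^ 2 + 1 < 2 * (p + q) → Odd (p + q) → ViolatesQ1 2 (4 * p * q + p + q)) ∧
      ((p - q) ^ 2 + 1 < 2 * (p + q) → Even (p + q) → ViolatesQ2 2 (4 * p * q + p + q))) ∧
    (∀ x : ℕ, 16 ≤ x → (x : ℝ) ^ (3 / 4 : ℝ) / 64 ≤ ({m | m ≤ x ∧ ViolatesQ1 2 m}.ncard : ℝ)) ∧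
    (∀ x : ℕ, 16 ≤ x → (x : ℝ) ^ (3 / 4 : ℝ) / 64 ≤ ({m | m ≤ x ∧ ViolatesQ2 2 m}.ncard : ℝ)) := by
  refine ⟨?_, ?_, ?_⟩
  · intro p q hq hqp
    have hp : 1 ≤ p := le_trans hq hqp
    refine ⟨(JM_props p q hp hq).1, (JM_props p q hp hq).2.1, (JM_props p q hp hq).2.2,
      JM_specRad p q hp hq, ?_, viol1 p q hq hqp, viol2 p q hq hqp⟩
    rw [JM_specRad p q hp hq]
    exact bound_lt_iff p q hq hqp
  · apply density
    intro s hs x hx
    apply count _ 1 le_rfl _ s hs x hx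
    intro p q hq hqp h hpar
    exact viol1 p q hq hqp h (Nat.odd_iff.2 hpar)
  · apply density
    intro s hs x hx
    apply count _ 0 (by omega) _ s hs x hx
    intro p q hq hqp h hpar
    exact viol2 p q hq hqp h (Nat.even_iff.2 hpar)

end Pool.Agent.Results.MP_65a48b_co.ManyViolations
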